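import Mathlib
import Pool.Agent.Y68.CS.Good

open Matrix Polynomial

set_option linter.unusedSectionVars false

namespace Pool.Agent.Y68.CS

variable {𝕂 : Type*} [Field 𝕂] [IsAlgClosed 𝕂] [CharZero 𝕂]


variable {n : ℕ}

/-- trace of the square of the commutator -/
def FF (T S : Matrix (Fin n) (Fin n) 𝕂) : 𝕂 := ((T * S - S * T) * (T * S - S * T)).trace

theorem FF_eq (T S : Matrix (Fin n) (Fin n) 𝕂) :
    FF T S = 2 * (T * S * T * S).trace - 2 * (T * T * (S * S)).trace := by
  unfold FF
  have h1 : (T * S - S * T) * (T * S - S * T) =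
      T * S * T * S - T * S * (S * T) - S * T * (T * S) + S * T * (S * T) := by
    noncomm_ring
  rw [h1, Matrix.trace_add, Matrix.trace_sub, Matrix.trace_sub]
  have h2 : (T * S * (S * T)).trace = (T * T * (S * S)).trace := by
    rw [Matrix.trace_mul_comm (T * T)]
    rw [show T * S * (S * T) = T * (S * S * T) by noncomm_ring, Matrix.trace_mul_comm T]
    congr 1
    noncomm_ring
  have h3 : (S * T * (T * S)).trace = (T * T * (S * S)).trace := by
    rw [show S * T * (T * S) = S * (T * T * S) by noncomm_ring, Matrix.trace_mul_comm S]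
    congr 1
    noncomm_ring
  have h4 : (S * T * (S * T)).trace = (T * S * T * S).trace := by
    rw [show S * T * (S * T) = S * (T * S * T) by noncomm_ring, Matrix.trace_mul_comm S]
  rw [h2, h3, h4]
  ring

theorem FF_comm (T S : Matrix (Fin n) (Fin n) 𝕂) : FF T S = FF S T := by
  unfold FF
  congr 1
  noncomm_ring

theorem FF_self (T : Matrix (Fin n) (Fin n) 𝕂) : FF T T = 0 := by
  simp [FF]

/-- traceless part -/
noncomputable def tl : Matrix (Fin n) (Fin n) 𝕂 →ₗ[𝕂] Matrix (Fin n) (Fin n) 𝕂 :=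
  LinearMap.id - ((n : 𝕂)⁻¹ • Matrix.traceLinearMap (Fin n) 𝕂 𝕂).smulRight 1

theorem tl_apply (T : Matrix (Fin n) (Fin n) 𝕂) :
    tl T = T - ((n : 𝕂)⁻¹ * T.trace) • (1 : Matrix (Fin n) (Fin n) 𝕂) := by
  simp [tl, LinearMap.smulRight_apply]

theorem trace_tl (hn : n ≠ 0) (T : Matrix (Fin n) (Fin n) 𝕂) : (tl T).trace = 0 := by
  have : (n : 𝕂) ≠ 0 := by exact_mod_cast hn
  rw [tl_apply, Matrix.trace_sub, Matrix.trace_smul, Matrix.trace_one]
  simp
  field_simp
  simp

theorem tl_add_scalar (T : Matrix (Fin n) (Fin n) 𝕂) :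
    T = tl T + ((n : 𝕂)⁻¹ * T.trace) • (1 : Matrix (Fin n) (Fin n) 𝕂) := by
  rw [tl_apply]
  abel

theorem tl_one (hn : n ≠ 0) : tl (1 : Matrix (Fin n) (Fin n) 𝕂) = 0 := by
  have : (n : 𝕂) ≠ 0 := by exact_mod_cast hn
  rw [tl_apply, Matrix.trace_one]
  simp [this]

theorem tl_of_trace {T : Matrix (Fin n) (Fin n) 𝕂} (h : T.trace = 0) : tl T = T := by
  rw [tl_apply, h]; simp

theorem tl_tl (hn : n ≠ 0) (T : Matrix (Fin n) (Fin n) 𝕂) : tl (tl T) = tl T :=
  tl_of_trace (trace_tl hn T)

theorem comm_tl_left (T S : Matrix (Fin n) (Fin n) 𝕂) :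
    tl T * S - S * tl T = T * S - S * T := by
  rw [tl_apply]
  simp [sub_mul, mul_sub]

theorem comm_tl_right (T S : Matrix (Fin n) (Fin n) 𝕂) :
    T * tl S - tl S * T = T * S - S * T := by
  rw [tl_apply]
  simp [sub_mul, mul_sub]

theorem FF_tl_left (T S : Matrix (Fin n) (Fin n) 𝕂) : FF (tl T) S = FF T S := by
  unfold FF
  rw [comm_tl_left]

theorem FF_tl_right (T S : Matrix (Fin n) (Fin n) 𝕂) : FF T (tl S) = FF T S := by
  unfold FF
  rw [comm_tl_right]

/-- the bilinear map behind `u` -/
noncomputable def uu : Matrix (Fin n) (Fin n) 𝕂 →ₗ[𝕂] Matrix (Fin n) (Fin n) 𝕂 →ₗ[𝕂]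
    Module.End 𝕂 (Matrix (Fin n) (Fin n) 𝕂) :=
  LinearMap.mk₂ 𝕂 (fun x y => (2⁻¹ : 𝕂) • (LinearMap.mulLeftRight 𝕂 (tl x, tl y) +
      LinearMap.mulLeftRight 𝕂 (tl y, tl x)))
    (by
      intro x x' y
      ext1 S
      simp only [map_add, LinearMap.smul_apply, LinearMap.add_apply,
        LinearMap.mulLeftRight_apply, add_mul, mul_add, smul_add]
      abel)
    (by
      intro c x y
      ext1 S
      simp only [map_smul, LinearMap.smul_apply, LinearMap.add_apply,
        LinearMap.mulLeftRight_apply, smul_mul_assoc, mul_smul_comm, smul_add, smul_comm c])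
    (by
      intro x y y'
      ext1 S
      simp only [map_add, LinearMap.smul_apply, LinearMap.add_apply,
        LinearMap.mulLeftRight_apply, add_mul, mul_add, smul_add]
      abel)
    (by
      intro c x y
      ext1 S
      simp only [map_smul, LinearMap.smul_apply, LinearMap.add_apply,
        LinearMap.mulLeftRight_apply, smul_mul_assoc, mul_smul_comm, smul_add, smul_comm c])

theorem uu_apply (x y S : Matrix (Fin n) (Fin n) 𝕂) :
    uu x y S = (2⁻¹ : 𝕂) • (tl x * S * tl y + tl y * S * tl x) := by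
  simp [uu, LinearMap.mulLeftRight_apply]

/-- `u T` is the operator `S ↦ T₀ S T₀` with `T₀` the traceless part of `T`. -/
noncomputable def u (x : Matrix (Fin n) (Fin n) 𝕂) :
    Module.End 𝕂 (Matrix (Fin n) (Fin n) 𝕂) := uu x x

theorem u_apply (x S : Matrix (Fin n) (Fin n) 𝕂) : u x S = tl x * S * tl x := by
  rw [u, uu_apply, ← two_smul 𝕂 (tl x * S * tl x), smul_smul]
  norm_num

/-- evaluation functional -/
noncomputable def ev (S : Matrix (Fin n) (Fin n) 𝕂) :
    Module.End 𝕂 (Matrix (Fin n) (Fin n) 𝕂) →ₗ[𝕂] 𝕂 where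
  toFun N := 2 * (N S * S).trace - 2 * (N 1 * (S * S)).trace
  map_add' N N' := by
    simp only [LinearMap.add_apply, add_mul, Matrix.trace_add]
    ring
  map_smul' c N := by
    simp only [LinearMap.smul_apply, smul_mul_assoc, Matrix.trace_smul, smul_eq_mul,
      RingHom.id_apply]
    ring

theorem ev_apply (S : Matrix (Fin n) (Fin n) 𝕂) (N : Module.End 𝕂 (Matrix (Fin n) (Fin n) 𝕂)) :
    ev S N = 2 * (N S * S).trace - 2 * (N 1 * (S * S)).trace := rfl

theorem ev_u (T S : Matrix (Fin n) (Fin n) 𝕂) : ev S (u T) = FF T S := by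
  rw [← FF_tl_left, FF_eq, ev_apply, u_apply, u_apply, mul_one]

/-- the span of the `u T` -/
noncomputable def WW (n : ℕ) : Submodule 𝕂 (Module.End 𝕂 (Matrix (Fin n) (Fin n) 𝕂)) :=
  Submodule.span 𝕂 (Set.range (u (n := n)))

theorem u_mem_WW (x : Matrix (Fin n) (Fin n) 𝕂) : u x ∈ WW (𝕂 := 𝕂) n :=
  Submodule.subset_span ⟨x, rfl⟩

theorem WW_symm {N : Module.End 𝕂 (Matrix (Fin n) (Fin n) 𝕂)} (hN : N ∈ WW (𝕂 := 𝕂) n) :
    ∀ S R, (N S * R).trace = (N R * S).trace := by
  refine Submodule.span_induction (p := fun N _ => ∀ S R, (N S * R).trace = (N R * S).trace)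
    ?_ ?_ ?_ ?_ hN
  · rintro _ ⟨x, rfl⟩ S R
    rw [u_apply, u_apply]
    rw [show tl x * S * tl x * R = (tl x * S) * (tl x * R) by noncomm_ring,
      Matrix.trace_mul_comm]
    congr 1
    noncomm_ring
  · intro S R; simp
  · intro N N' _ _ h h' S R
    simp only [LinearMap.add_apply, add_mul, Matrix.trace_add, h S R, h' S R]
  · intro c N _ h S R
    simp only [LinearMap.smul_apply, smul_mul_assoc, Matrix.trace_smul, h S R]

theorem WW_contr (hn : n ≠ 0) {N : Module.End 𝕂 (Matrix (Fin n) (Fin n) 𝕂)} (hN : N ∈ WW (𝕂 := 𝕂) n) :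
    ∀ k d, ∑ j, N (Matrix.single j k 1) j d = 0 := by
  refine Submodule.span_induction
    (p := fun N _ => ∀ k d, ∑ j, N (Matrix.single j k 1) j d = 0) ?_ ?_ ?_ ?_ hN
  · rintro _ ⟨x, rfl⟩ k d
    have h1 : ∀ j, (u x) (Matrix.single j k 1) j d = tl x j j * tl x k d := by
      intro j
      rw [u_apply]
      simp [Matrix.mul_apply, Matrix.single_apply, ite_and]
    simp only [h1, ← Finset.sum_mul]
    have h2 := trace_tl hn x
    rw [Matrix.trace] at h2
    simp only [Matrix.diag] at h2
    rw [h2, zero_mul]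
  · intro k d; simp
  · intro N N' _ _ h h' k d
    simp only [LinearMap.add_apply, Matrix.add_apply, Finset.sum_add_distrib, h k d, h' k d,
      add_zero]
  · intro c N _ h k d
    simp only [LinearMap.smul_apply, Matrix.smul_apply, ← Finset.smul_sum, h k d, smul_zero]

theorem trace_mul_eq_zero {A : Matrix (Fin n) (Fin n) 𝕂} (h : ∀ R, (A * R).trace = 0) :
    A = 0 := by
  ext i j
  have := h (Matrix.single j i 1)
  rw [Matrix.trace_mul_single] at this
  simpa using this

theorem nondeg (hn : n ≠ 0) {N : Module.End 𝕂 (Matrix (Fin n) (Fin n) 𝕂)} (hN : N ∈ WW (𝕂 := 𝕂) n)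
    (h : ∀ S, ev S N = 0) : N = 0 := by
  have hn' : (n : 𝕂) ≠ 0 := by exact_mod_cast hn
  have h1 := WW_symm hN
  have h2 := WW_contr hn hN
  have key : ∀ S, (2 : 𝕂) • N S = N 1 * S + S * N 1 := by
    intro S
    rw [← sub_eq_zero]
    apply trace_mul_eq_zero
    intro R
    have e1 := h (S + R)
    have e2 := h S
    have e3 := h R
    rw [ev_apply] at e1 e2 e3
    simp only [map_add, add_mul, mul_add, Matrix.trace_add] at e1
    have e4 := h1 S R
    have e5 : (N 1 * (S * R)).trace = (N 1 * S * R).trace := by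
      rw [Matrix.mul_assoc]
    have e6 : (N 1 * (R * S)).trace = (S * N 1 * R).trace := by
      rw [← Matrix.mul_assoc, Matrix.trace_mul_comm, Matrix.mul_assoc]
    simp only [sub_mul, add_mul, smul_mul_assoc, Matrix.trace_sub, Matrix.trace_add,
      Matrix.trace_smul, smul_eq_mul]
    rw [← e5, ← e6]
    linear_combination (1/2) * e1 - (1/2) * e2 - (1/2) * e3 + e4
  have hZ : N 1 = 0 := by
    have e : ∀ k d, (n : 𝕂) * N 1 k d + (if k = d then (N 1).trace else 0) = 0 := by
      intro k d
      have e1 : ∀ j, (2 : 𝕂) * N (Matrix.single j k 1) j d =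
          (if k = d then N 1 j j else 0) + N 1 k d := by
        intro j
        have := congrFun (congrFun (key (Matrix.single j k 1)) j) d
        rw [Matrix.smul_apply, Matrix.add_apply, smul_eq_mul] at this
        rw [this]
        congr 1
        · simp [Matrix.mul_apply, Matrix.single_apply, ite_and]
        · simp
      have e2 := h2 k d
      have e3 : ∑ j, ((2 : 𝕂) * N (Matrix.single j k 1) j d) = 0 := by
        rw [← Finset.mul_sum, e2, mul_zero]
      simp only [e1, Finset.sum_add_distrib, Finset.sum_const, Finset.card_univ,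
        Fintype.card_fin, nsmul_eq_mul] at e3
      have h3 : ∑ i, N 1 i i = (N 1).trace := rfl
      by_cases hkd : k = d
      · simp only [hkd, if_true] at e3 ⊢
        rw [h3] at e3
        linear_combination e3
      · simp only [hkd, if_false, Finset.sum_const_zero] at e3 ⊢
        linear_combination e3
    have e0 : (N 1).trace = 0 := by
      have : ∑ k, ((n : 𝕂) * N 1 k k + (if k = k then (N 1).trace else 0)) = 0 :=
        Finset.sum_eq_zero (fun k _ => e k k)
      simp only [if_true, Finset.sum_add_distrib, ← Finset.mul_sum, Finset.sum_const,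
        Finset.card_univ, Fintype.card_fin, nsmul_eq_mul] at this
      have h3 : ∑ i, N 1 i i = (N 1).trace := rfl
      rw [h3] at this
      have h4 : (2 * n : 𝕂) * (N 1).trace = 0 := by linear_combination this
      rcases mul_eq_zero.mp h4 with h5 | h5
      · exfalso
        apply hn'
        simpa using h5
      · exact h5
    ext k d
    have := e k d
    rw [e0] at this
    simp only [ite_self, add_zero] at this
    rcases mul_eq_zero.mp this with h5 | h5
    · exact absurd h5 hn'
    · simpa using h5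
  apply LinearMap.ext
  intro S
  have := key S
  rw [hZ] at this
  simp only [zero_mul, mul_zero, add_zero] at this
  rcases smul_eq_zero.mp this with h5 | h5
  · norm_num at h5
  · simpa using h5

end Pool.Agent.Y68.CS
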