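import Mathlib
import Pool.Agent.Y68.CS.Sqrt

open Matrix Polynomial Module

set_option linter.unusedSectionVars false

namespace Pool.Agent.Y68.CS

variable {𝕂 : Type*} [Field 𝕂] [IsAlgClosed 𝕂] [CharZero 𝕂]


variable {n : ℕ}

/-- coordinates of an operator on matrices -/
def co : Module.End 𝕂 (Matrix (Fin n) (Fin n) 𝕂) →ₗ[𝕂]
    (Fin n × Fin n → Fin n × Fin n → 𝕂) where
  toFun N p q := N (Matrix.single p.2 q.1 1) p.1 q.2
  map_add' N N' := by funext p q; simp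
  map_smul' c N := by funext p q; simp

theorem co_apply (N : Module.End 𝕂 (Matrix (Fin n) (Fin n) 𝕂)) (p q : Fin n × Fin n) :
    co N p q = N (Matrix.single p.2 q.1 1) p.1 q.2 := rfl

theorem co_u (x : Matrix (Fin n) (Fin n) 𝕂) (p q : Fin n × Fin n) :
    co (u x) p q = tl x p.1 p.2 * tl x q.1 q.2 := by
  rw [co_apply, u_apply]
  simp [Matrix.mul_apply, Matrix.single_apply, ite_and]

theorem co_injective : Function.Injective (co (𝕂 := 𝕂) (n := n)) := by
  intro N N' h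
  apply (Matrix.stdBasis 𝕂 (Fin n) (Fin n)).ext
  rintro ⟨j, k⟩
  rw [Matrix.stdBasis_eq_single]
  ext a d
  have := congrFun (congrFun h (a, j)) (k, d)
  rw [co_apply, co_apply] at this
  exact this

theorem sign_of_sq {ι : Type*} (w w' : ι → 𝕂) (h : ∀ p q, w p * w q = w' p * w' q) :
    w = w' ∨ w = -w' := by
  by_cases h0 : ∀ p, w p = 0
  · left
    funext p
    have h1 := h p p
    rw [h0 p, zero_mul] at h1
    rw [h0 p]
    have h2 : w' p = 0 := by
      rcases mul_eq_zero.mp h1.symm with h3 | h3 <;> exact h3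
    exact h2.symm
  · push Not at h0
    obtain ⟨o, ho⟩ := h0
    have h1 : w o = w' o ∨ w o = - w' o := mul_self_eq_mul_self_iff.mp (h o o)
    rcases h1 with h1 | h1
    · left
      funext p
      have h2 := h o p
      rw [← h1] at h2
      exact mul_left_cancel₀ ho h2
    · right
      funext p
      have h2 := h o p
      apply mul_left_cancel₀ ho
      rw [h2, h1]
      simp

theorem mat_sign_of_sq (w w' : Matrix (Fin n) (Fin n) 𝕂)
    (h : ∀ p q : Fin n × Fin n, w p.1 p.2 * w q.1 q.2 = w' p.1 p.2 * w' q.1 q.2) :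
    w = w' ∨ w = -w' := by
  rcases sign_of_sq (fun p : Fin n × Fin n => w p.1 p.2) (fun p => w' p.1 p.2) h with h1 | h1
  · left
    ext i j
    exact congrFun h1 (i, j)
  · right
    ext i j
    exact congrFun h1 (i, j)

theorem u_of_tl_eq_zero {x : Matrix (Fin n) (Fin n) 𝕂} (h : tl x = 0)
    (e : Matrix (Fin n) (Fin n) 𝕂) : uu e x = 0 := by
  ext1 S
  rw [uu_apply, h]
  simp

theorem uu_comm (x y : Matrix (Fin n) (Fin n) 𝕂) : uu x y = uu y x := by
  ext1 S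
  rw [uu_apply, uu_apply, add_comm]

theorem FF_neg_left (T S : Matrix (Fin n) (Fin n) 𝕂) : FF (-T) S = FF T S := by
  unfold FF
  congr 1
  noncomm_ring

theorem FF_neg_right (T S : Matrix (Fin n) (Fin n) 𝕂) : FF T (-S) = FF T S := by
  unfold FF
  congr 1
  noncomm_ring

theorem LP.FF {V : Type*} [AddCommGroup V] [Module 𝕂 V]
    {f g : V → Matrix (Fin n) (Fin n) 𝕂} (hf : LPM f) (hg : LPM g) :
    LP (fun x => Pool.Agent.Y68.CS.FF (f x) (g x)) := by
  unfold Pool.Agent.Y68.CS.FF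
  exact LPM.trace (((hf.mul hg).sub (hg.mul hf)).mul ((hf.mul hg).sub (hg.mul hf)))

variable {φ : Matrix (Fin n) (Fin n) 𝕂 → Matrix (Fin n) (Fin n) 𝕂}

theorem exists_psi (hn : n ≠ 0) (hφ : Pres φ) :
    ∃ (ψ : Matrix (Fin n) (Fin n) 𝕂 →ₗ[𝕂] Matrix (Fin n) (Fin n) 𝕂)
      (h : Matrix (Fin n) (Fin n) 𝕂 → 𝕂), LP h ∧ (∃ x, h x ≠ 0) ∧
      (∀ x, h x ≠ 0 → tl (φ x) = ψ x ∨ tl (φ x) = - ψ x) ∧
      ψ 1 = 0 ∧ (∀ x, (ψ x).trace = 0) ∧ (∀ X Y, FF (ψ X) (ψ Y) = FF X Y) := by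
  obtain ⟨L, h, hLP, hne, hL, hLinj⟩ := exists_lift hn hφ
  let Λ : Matrix (Fin n) (Fin n) 𝕂 →ₗ[𝕂] Matrix (Fin n) (Fin n) 𝕂 →ₗ[𝕂]
      (Fin n × Fin n → Fin n × Fin n → 𝕂) := (uu.compr₂ L).compr₂ co
  have hΛ : ∀ x y, Λ x y = co (L (uu x y)) := fun x y => rfl
  have hΛLP : ∀ p q, LP (fun x => Λ x x p q) := by
    intro p q
    have h1 := LP.functional_u (n := n)
      ((LinearMap.proj q ∘ₗ LinearMap.proj p ∘ₗ co) ∘ₗ L)
    exact h1
  have hsmall : ∀ x, h x ≠ 0 → ∀ p q, Λ x x p q = tl (φ x) p.1 p.2 * tl (φ x) q.1 q.2 := by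
    intro x hx p q
    rw [hΛ]
    have := hL x hx
    rw [u] at this
    rw [this, co_u]
  have hsymq : ∀ x p q, Λ x x p q = Λ x x q p := by
    intro x p q
    have h1 := LP.identity (f := fun x => Λ x x p q - Λ x x q p)
      ((hΛLP p q).sub (hΛLP q p)) hLP hne (by
        intro x hx
        rw [hsmall x hx, hsmall x hx]
        ring) x
    exact sub_eq_zero.mp h1
  have hminor : ∀ x p q r s, Λ x x p q * Λ x x r s = Λ x x p s * Λ x x r q := by
    intro x p q r s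
    have h1 := LP.identity (f := fun x => Λ x x p q * Λ x x r s - Λ x x p s * Λ x x r q)
      (((hΛLP p q).mul (hΛLP r s)).sub ((hΛLP p s).mul (hΛLP r q))) hLP hne (by
        intro x hx
        rw [hsmall x hx, hsmall x hx, hsmall x hx, hsmall x hx]
        ring) x
    exact sub_eq_zero.mp h1
  obtain ⟨ψ0, hψ0⟩ := sqrt_lemma Λ (fun x y => by rw [hΛ, hΛ, uu_comm])
    (fun x => exists_root_of_minors (Λ x x) (hsymq x) (hminor x)) (by
      intro e x c hc
      have h1 : co (L (u x - (c * c) • u e)) = 0 := by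
        rw [map_sub, map_sub, map_smul, map_smul]
        rw [hΛ, hΛ] at hc
        rw [u, u, hc, sub_self]
      have h2 : L (u x - (c * c) • u e) = 0 := by
        apply co_injective
        rw [h1, map_zero]
      have h3 : u x - (c * c) • u e = 0 := by
        apply hLinj _ _ h2
        exact Submodule.sub_mem _ (u_mem_WW _) (Submodule.smul_mem _ _ (u_mem_WW _))
      have h4 : ∀ p q : Fin n × Fin n, tl x p.1 p.2 * tl x q.1 q.2 =
          (c • tl e) p.1 p.2 * (c • tl e) q.1 q.2 := by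
        intro p q
        have h5 := congrFun (congrFun (congrArg co (sub_eq_zero.mp h3)) p) q
        rw [co_u, map_smul, Pi.smul_apply, Pi.smul_apply, co_u] at h5
        rw [h5]
        simp only [smul_eq_mul, Matrix.smul_apply]
        ring
      rcases mat_sign_of_sq _ _ h4 with h5 | h5
      · refine ⟨c, Or.inl rfl, ?_⟩
        rw [hΛ, u_of_tl_eq_zero, map_zero, map_zero]
        rw [map_sub, map_smul, h5, sub_self]
      · refine ⟨-c, Or.inr rfl, ?_⟩
        rw [hΛ, u_of_tl_eq_zero, map_zero, map_zero]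
        rw [map_sub, map_smul, h5, neg_smul]
        simp)
  let ψ : Matrix (Fin n) (Fin n) 𝕂 →ₗ[𝕂] Matrix (Fin n) (Fin n) 𝕂 :=
    { toFun := fun x => Matrix.of fun i j => ψ0 x (i, j)
      map_add' := by intro x y; ext i j; simp
      map_smul' := by intro c x; ext i j; simp }
  have hψ : ∀ x i j, ψ x i j = ψ0 x (i, j) := fun _ _ _ => rfl
  have hsgn : ∀ x, h x ≠ 0 → tl (φ x) = ψ x ∨ tl (φ x) = - ψ x := by
    intro x hx
    apply mat_sign_of_sq
    intro p q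
    rw [← hsmall x hx p q, hψ0, hψ, hψ]
  refine ⟨ψ, h, hLP, hne, hsgn, ?_, ?_, ?_⟩
  · ext i j
    have h1 := hψ0 1 (i, j) (i, j)
    rw [hΛ, u_of_tl_eq_zero (tl_one hn), map_zero, map_zero] at h1
    have h2 : ψ0 1 (i, j) = 0 := by
      rcases mul_eq_zero.mp h1.symm with h3 | h3 <;> exact h3
    rw [hψ, h2]
    rfl
  · intro x
    refine LP.identity (f := fun x => (ψ x).trace) (LPM.linear ψ).trace hLP hne ?_ x
    intro x hx
    have h1 := trace_tl hn (φ x)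
    rcases hsgn x hx with h2 | h2
    · rw [h2] at h1
      exact h1
    · rw [h2, Matrix.trace_neg, neg_eq_zero] at h1
      exact h1
  · let Lf := LinearMap.fst 𝕂 (Matrix (Fin n) (Fin n) 𝕂) (Matrix (Fin n) (Fin n) 𝕂)
    let Ls := LinearMap.snd 𝕂 (Matrix (Fin n) (Fin n) 𝕂) (Matrix (Fin n) (Fin n) 𝕂)
    have hfst : LPM (fun z : Matrix (Fin n) (Fin n) 𝕂 × Matrix (Fin n) (Fin n) 𝕂 => z.1) :=
      LPM.linear Lf
    have hsnd : LPM (fun z : Matrix (Fin n) (Fin n) 𝕂 × Matrix (Fin n) (Fin n) 𝕂 => z.2) :=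
      LPM.linear Ls
    have hf : LP (fun z : Matrix (Fin n) (Fin n) 𝕂 × Matrix (Fin n) (Fin n) 𝕂 =>
        FF (ψ z.1) (ψ z.2) - FF z.1 z.2) := by
      apply LP.sub
      · exact LP.FF (LPM.linear (ψ ∘ₗ Lf)) (LPM.linear (ψ ∘ₗ Ls))
      · exact LP.FF hfst hsnd
    have hg1 : LP (fun z : Matrix (Fin n) (Fin n) 𝕂 × Matrix (Fin n) (Fin n) 𝕂 => h z.1) :=
      hLP.comp Lf
    have hg2 : LP (fun z : Matrix (Fin n) (Fin n) 𝕂 × Matrix (Fin n) (Fin n) 𝕂 => h z.2) :=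
      hLP.comp Ls
    have hg3 : LP (fun z : Matrix (Fin n) (Fin n) 𝕂 × Matrix (Fin n) (Fin n) 𝕂 =>
        hankel (z.1 * z.2 - z.2 * z.1)) := ((hfst.mul hsnd).sub (hsnd.mul hfst)).hankel
    obtain ⟨x0, hx0⟩ := hne
    obtain ⟨T0, S0, h0⟩ := exists_good (𝕂 := 𝕂) n
    obtain ⟨z1, hz1⟩ := LP.domain hg1 hg2 ⟨(x0, 0), hx0⟩ ⟨(0, x0), hx0⟩
    obtain ⟨z2, hz2⟩ := LP.domain (hg1.mul hg2) hg3 ⟨z1, mul_ne_zero hz1.1 hz1.2⟩
      ⟨(T0, S0), h0⟩
    intro X Y
    have := LP.identity hf ((hg1.mul hg2).mul hg3) ⟨z2, mul_ne_zero hz2.1 hz2.2⟩ (by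
      rintro ⟨X, Y⟩ hXY
      have hX : h X ≠ 0 := fun h' => hXY (by simp [h'])
      have hY : h Y ≠ 0 := fun h' => hXY (by simp [h'])
      have hC : hankel (X * Y - Y * X) ≠ 0 := fun h' => hXY (by simp [h'])
      have h1 := FF_of_good hφ hC
      show FF (ψ X) (ψ Y) - FF X Y = 0
      rw [← h1, ← FF_tl_left (φ X), ← FF_tl_right _ (φ Y)]
      rcases hsgn X hX with h2 | h2 <;> rcases hsgn Y hY with h3 | h3 <;>
        simp [h2, h3, FF_neg_left, FF_neg_right]) (X, Y)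
    exact sub_eq_zero.mp this

end Pool.Agent.Y68.CS
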