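import Mathlib
import Pool.Agent.Y68.CS.Psi

open Matrix Polynomial Module

set_option linter.unusedSectionVars false

namespace Pool.Agent.Y68.CS

variable {𝕂 : Type*} [Field 𝕂] [IsAlgClosed 𝕂] [CharZero 𝕂]


variable {n : ℕ}

theorem scalar_of_wedge (P : Matrix (Fin n) (Fin n) 𝕂)
    (h : ∀ x : Fin n → 𝕂, ∀ i j, (P *ᵥ x) i * x j = (P *ᵥ x) j * x i) :
    ∃ c : 𝕂, P = c • (1 : Matrix (Fin n) (Fin n) 𝕂) := by
  have hoff : ∀ i k, i ≠ k → P i k = 0 := by
    intro i k hik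
    have h1 := h (Pi.single k 1) i k
    simp [hik] at h1
    exact h1
  have hdiag : ∀ i j, P i i = P j j := by
    intro i j
    by_cases hij : i = j
    · rw [hij]
    have h1 := h (Pi.single i 1 + Pi.single j 1) i j
    have h2 : j ≠ i := fun h => hij h.symm
    simp [Matrix.mulVec_add, hoff i j hij, hoff j i h2, hij, h2] at h1
    exact h1
  rcases Nat.eq_zero_or_pos n with rfl | hn
  · exact ⟨0, by ext i; exact i.elim0⟩
  · refine ⟨P ⟨0, hn⟩ ⟨0, hn⟩, ?_⟩
    ext i j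
    rw [Matrix.smul_apply, Matrix.one_apply]
    by_cases hij : i = j
    · subst hij
      simp [hdiag i ⟨0, hn⟩]
    · simp [hij, hoff i j hij]

theorem LP.mulVec (P : Matrix (Fin n) (Fin n) 𝕂) (i : Fin n) :
    LP (fun x : Fin n → 𝕂 => (P *ᵥ x) i) := by
  have := LP.linear (LinearMap.proj (R := 𝕂) (φ := fun _ : Fin n => 𝕂) i ∘ₗ P.mulVecLin)
  simpa using this

theorem LP.coord (i : Fin n) : LP (fun x : Fin n → 𝕂 => x i) :=
  LP.linear (LinearMap.proj (R := 𝕂) (φ := fun _ : Fin n => 𝕂) i)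

/-- Lemma S -/
theorem scalar_or_scalar (P Q : Matrix (Fin n) (Fin n) 𝕂)
    (h : ∀ x g : Fin n → 𝕂, g ⬝ᵥ x = 0 → (g ⬝ᵥ P *ᵥ x) * (g ⬝ᵥ Q *ᵥ x) = 0) :
    (∃ c : 𝕂, P = c • (1 : Matrix (Fin n) (Fin n) 𝕂)) ∨
    (∃ c : 𝕂, Q = c • (1 : Matrix (Fin n) (Fin n) 𝕂)) := by
  let f : Matrix (Fin n) (Fin n) 𝕂 → Fin n → Fin n → (Fin n → 𝕂) → 𝕂 :=
    fun P i j x => (P *ᵥ x) i * x j - (P *ᵥ x) j * x i
  have hf : ∀ P i j, LP (f P i j) := fun P i j =>
    ((LP.mulVec P i).mul (LP.coord j)).sub ((LP.mulVec P j).mul (LP.coord i))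
  have hg : ∀ (i j : Fin n) (x y : Fin n → 𝕂),
      (Pi.single i (x j) - Pi.single j (x i) : Fin n → 𝕂) ⬝ᵥ y = y i * x j - y j * x i := by
    intro i j x y
    rw [sub_dotProduct, single_dotProduct, single_dotProduct]
    ring
  have h1 : ∀ i j k l x, f P i j x * f Q k l x = 0 := by
    intro i j k l x
    have e1 : f P i j x * f Q i j x = 0 := by
      have := h x (Pi.single i (x j) - Pi.single j (x i)) (by rw [hg]; ring)
      rw [hg, hg] at this
      exact this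
    have e2 : f P k l x * f Q k l x = 0 := by
      have := h x (Pi.single k (x l) - Pi.single l (x k)) (by rw [hg]; ring)
      rw [hg, hg] at this
      exact this
    have e3 : (f P i j x + f P k l x) * (f Q i j x + f Q k l x) = 0 := by
      have := h x ((Pi.single i (x j) - Pi.single j (x i)) +
        (Pi.single k (x l) - Pi.single l (x k))) (by rw [add_dotProduct, hg, hg]; ring)
      rw [add_dotProduct, add_dotProduct, hg, hg, hg, hg] at this
      exact this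
    have e4 : (f P i j x * f Q k l x) * (f P i j x * f Q k l x) = 0 := by
      linear_combination (f P i j x * f Q k l x) * e3 - (f P i j x * f Q k l x) * e1
        - (f P i j x * f Q k l x) * e2 - (f P i j x * f Q i j x) * e2
    rcases mul_eq_zero.mp e4 with h5 | h5 <;> exact h5
  by_cases hP : ∀ i j x, f P i j x = 0
  · left
    apply scalar_of_wedge
    intro x i j
    exact sub_eq_zero.mp (hP i j x)
  · right
    push Not at hP
    obtain ⟨i, j, x, hx⟩ := hP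
    apply scalar_of_wedge
    intro y k l
    rcases LP.mul_eq_zero (hf P i j) (hf Q k l) (h1 i j k l) with h2 | h2
    · exact absurd (h2 x) hx
    · exact sub_eq_zero.mp (h2 y)

theorem FF_rank1 (T : Matrix (Fin n) (Fin n) 𝕂) {x g : Fin n → 𝕂} (h : g ⬝ᵥ x = 0) :
    FF T (vecMulVec x g) = 2 * (g ⬝ᵥ T *ᵥ x) ^ 2 := by
  rw [FF_eq]
  have h1 : vecMulVec x g * vecMulVec x g = 0 := by
    rw [vecMulVec_mul_vecMulVec, h]
    simp
  have h2 : T * vecMulVec x g * T * vecMulVec x g =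
      (g ⬝ᵥ T *ᵥ x) • vecMulVec (T *ᵥ x) g := by
    rw [Matrix.mul_assoc, mul_vecMulVec, vecMulVec_mul_vecMulVec, vecMulVec_smul]
  rw [h1, mul_zero, Matrix.trace_zero, h2, Matrix.trace_smul, trace_vecMulVec, smul_eq_mul,
    dotProduct_comm]
  ring

theorem scalar_of_FF_eq {T T' : Matrix (Fin n) (Fin n) 𝕂}
    (h : ∀ x g : Fin n → 𝕂, g ⬝ᵥ x = 0 → FF T (vecMulVec x g) = FF T' (vecMulVec x g)) :
    (∃ c : 𝕂, T - T' = c • (1 : Matrix (Fin n) (Fin n) 𝕂)) ∨
    (∃ c : 𝕂, T + T' = c • (1 : Matrix (Fin n) (Fin n) 𝕂)) := by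
  apply scalar_or_scalar
  intro x g hxg
  have h1 := h x g hxg
  rw [FF_rank1 T hxg, FF_rank1 T' hxg] at h1
  rw [Matrix.sub_mulVec, Matrix.add_mulVec, dotProduct_sub, dotProduct_add]
  linear_combination (1/2 : 𝕂) * h1

theorem scalar_traceless (hn : n ≠ 0) {A : Matrix (Fin n) (Fin n) 𝕂}
    (h : ∃ c : 𝕂, A = c • (1 : Matrix (Fin n) (Fin n) 𝕂)) (ht : A.trace = 0) : A = 0 := by
  obtain ⟨c, rfl⟩ := h
  have hn' : (n : 𝕂) ≠ 0 := by exact_mod_cast hn
  rw [Matrix.trace_smul, Matrix.trace_one, Fintype.card_fin, smul_eq_mul] at ht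
  rcases mul_eq_zero.mp ht with h1 | h1
  · rw [h1, zero_smul]
  · exact absurd h1 hn'

end Pool.Agent.Y68.CS
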