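import Mathlib
import Pool.Agent.Y68.CS.Core

open Matrix Polynomial Module

set_option linter.unusedSectionVars false

namespace Pool.Agent.Y68.CS

variable {𝕂 : Type*} [Field 𝕂] [IsAlgClosed 𝕂] [CharZero 𝕂]


variable {n : ℕ}

theorem incl_of_eq {X Y : Matrix (Fin n) (Fin n) 𝕂} {e : 𝕂} (he : e = 1 ∨ e = -1)
    (h : sp0 X = sp0 (e • Y)) :
    (∀ l ∈ spectrum 𝕂 X, l = 0 ∨ l ∈ spectrum 𝕂 Y ∨ -l ∈ spectrum 𝕂 Y) ∧
    (∀ l ∈ spectrum 𝕂 Y, l = 0 ∨ l ∈ spectrum 𝕂 X ∨ -l ∈ spectrum 𝕂 X) := by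
  rcases he with rfl | rfl
  · rw [one_smul] at h
    constructor
    · intro l hl
      by_cases h0 : l = 0
      · exact Or.inl h0
      · have h1 : l ∈ sp0 X := ⟨hl, h0⟩
        rw [h] at h1
        exact Or.inr (Or.inl h1.1)
    · intro l hl
      by_cases h0 : l = 0
      · exact Or.inl h0
      · have h1 : l ∈ sp0 Y := ⟨hl, h0⟩
        rw [← h] at h1
        exact Or.inr (Or.inl h1.1)
  · rw [neg_smul, one_smul] at h
    constructor
    · intro l hl
      by_cases h0 : l = 0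
      · exact Or.inl h0
      · have h1 : l ∈ sp0 X := ⟨hl, h0⟩
        rw [h] at h1
        have h2 := h1.1
        rw [← spectrum.neg_eq, Set.mem_neg] at h2
        exact Or.inr (Or.inr h2)
    · intro l hl
      by_cases h0 : l = 0
      · exact Or.inl h0
      · have h1 : -l ∈ sp0 (-Y) := by
          refine ⟨?_, neg_ne_zero.mpr h0⟩
          rw [← spectrum.neg_eq, Set.mem_neg, neg_neg]
          exact hl
        rw [← h] at h1
        exact Or.inr (Or.inr h1.1)

theorem core_pointwise {φ : Matrix (Fin n) (Fin n) 𝕂 → Matrix (Fin n) (Fin n) 𝕂}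
    (hφ : Pres φ) (c : 𝕂) (hc : c ^ 2 = 1 ∨ c ^ 2 = -1)
    (h : Matrix (Fin n) (Fin n) 𝕂 → 𝕂) (hLP : LP h) (hne : ∃ x, h x ≠ 0)
    (H : ∀ x, h x ≠ 0 → tl (φ x) = c • tl x ∨ tl (φ x) = -(c • tl x))
    (T : Matrix (Fin n) (Fin n) 𝕂) :
    ∃ ξ η : 𝕂, (ξ = 1 ∨ ξ = -1) ∧ φ T = (ξ * c) • T + η • (1 : Matrix (Fin n) (Fin n) 𝕂) := by
  have hc0 : c ≠ 0 := by
    rintro rfl
    rcases hc with hc | hc <;> norm_num at hc
  have hT : φ T = c • (c⁻¹ • φ T) := by rw [smul_smul, mul_inv_cancel₀ hc0, one_smul]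
  have hspec : ∀ S, h S ≠ 0 → ∃ e : 𝕂, (e = 1 ∨ e = -1) ∧
      sp0 (T * S - S * T) = sp0 (e • ((c⁻¹ • φ T) * S - S * (c⁻¹ • φ T))) := by
    intro S hS
    have h1 : ∃ d : 𝕂, (d = c ∨ d = -c) ∧ tl (φ S) = d • tl S := by
      rcases H S hS with h1 | h1
      · exact ⟨c, Or.inl rfl, h1⟩
      · exact ⟨-c, Or.inr rfl, by rw [h1, neg_smul]⟩
    obtain ⟨d, hd, hdS⟩ := h1
    refine ⟨c * d, ?_, ?_⟩
    · rcases hc with hc | hc <;> rcases hd with rfl | rfl
      · left; linear_combination hc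
      · right; linear_combination -hc
      · right; linear_combination hc
      · left; linear_combination -hc
    · rw [← hφ T S]
      congr 1
      rw [← comm_tl_right (φ T) (φ S), hdS, ← comm_tl_right (c⁻¹ • φ T) S]
      conv_lhs => rw [hT]
      simp only [smul_mul_assoc, mul_smul_comm]
      module
  have hA : LPM (fun S : Matrix (Fin n) (Fin n) 𝕂 => T * S - S * T) := LPM.comm_right T
  have hB : LPM (fun S : Matrix (Fin n) (Fin n) 𝕂 =>
      (c⁻¹ • φ T) * S - S * (c⁻¹ • φ T)) := LPM.comm_right (c⁻¹ • φ T)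
  have e1 := ext_incl hA hB hLP hne (by
    intro S hS
    obtain ⟨e, he, hes⟩ := hspec S hS
    exact (incl_of_eq he hes).1)
  have e2 := ext_incl hB hA hLP hne (by
    intro S hS
    obtain ⟨e, he, hes⟩ := hspec S hS
    exact (incl_of_eq he hes).2)
  rcases scalar_of_incl e1 e2 with ⟨k, hk⟩ | ⟨k, hk⟩
  · refine ⟨1, c * k, Or.inl rfl, ?_⟩
    have h2 : c⁻¹ • φ T = T + k • (1 : Matrix (Fin n) (Fin n) 𝕂) := by
      rw [← hk]; abel
    rw [hT, h2]
    module
  · refine ⟨-1, c * k, Or.inr rfl, ?_⟩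
    have h2 : c⁻¹ • φ T = -T + k • (1 : Matrix (Fin n) (Fin n) 𝕂) := by
      rw [← hk]; abel
    rw [hT, h2]
    module

theorem core_big (hn : 3 ≤ n) {φ : Matrix (Fin n) (Fin n) 𝕂 → Matrix (Fin n) (Fin n) 𝕂}
    (hφ : Pres φ) (c : 𝕂) (hc : c ^ 2 = 1 ∨ c ^ 2 = -1)
    (ξ η : Matrix (Fin n) (Fin n) 𝕂 → 𝕂) (hξ : ∀ T, ξ T = 1 ∨ ξ T = -1)
    (hform : ∀ T, φ T = (ξ T * c) • T + η T • (1 : Matrix (Fin n) (Fin n) 𝕂)) :
    c ^ 2 = 1 ∧ ∀ T S, ¬ Quad T → ¬ Quad S → ξ T = ξ S := by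
  have hpair : ∀ T S, (∃ l ∈ spectrum 𝕂 (T * S - S * T), -l ∉ spectrum 𝕂 (T * S - S * T)) →
      ξ T * ξ S * c ^ 2 = 1 := by
    rintro T S ⟨l, hl, hl'⟩
    have h1 := hφ T S
    rw [hform T, hform S, comm_affine] at h1
    have h2 : ξ T * c * (ξ S * c) = ξ T * ξ S * c ^ 2 := by ring
    rw [h2] at h1
    by_contra hcon
    have h3 : ξ T * ξ S * c ^ 2 = -1 := by
      rcases hξ T with e1 | e1 <;> rcases hξ S with e2 | e2 <;> rcases hc with e3 | e3 <;>
        simp [e1, e2, e3] at hcon ⊢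
    rw [h3, neg_smul, one_smul] at h1
    have hl0 : l ≠ 0 := by
      rintro rfl
      exact hl' (by rwa [neg_zero])
    apply hl'
    have h4 : l ∈ sp0 (T * S - S * T) := ⟨hl, hl0⟩
    rw [← h1] at h4
    have h5 := h4.1
    rw [← spectrum.neg_eq, Set.mem_neg] at h5
    exact h5
  have hconst : ∀ T S, ¬ Quad T → ¬ Quad S → ξ T = ξ S := by
    intro T S hT hS
    obtain ⟨R, hR1, hR2⟩ := asym_common (LPM.comm_right T) (LPM.comm_right S)
      (asym_exists hT) (asym_exists hS)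
    have e1 := hpair T R hR1
    have e2 := hpair S R hR2
    have h3 : ξ R * c ^ 2 ≠ 0 := by
      intro h0
      have : ξ T * ξ R * c ^ 2 = 0 := by rw [mul_assoc, h0, mul_zero]
      rw [this] at e1
      norm_num at e1
    apply mul_right_cancel₀ h3
    linear_combination e1 - e2
  refine ⟨?_, hconst⟩
  obtain ⟨T, hT⟩ := exists_not_quad (𝕂 := 𝕂) hn
  obtain ⟨S, hS⟩ := asym_exists hT
  have hSq : ¬ Quad S := by
    intro hq
    obtain ⟨l, hl, hl'⟩ := hS
    apply hl'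
    have e : T * S - S * T = -(S * T - T * S) := by abel
    rw [e, ← spectrum.neg_eq, Set.mem_neg] at hl ⊢
    exact quad_symm hq T hl
  have e1 := hpair T S hS
  rw [hconst T S hT hSq] at e1
  have e2 : ξ S * ξ S = 1 := by rcases hξ S with e | e <;> rw [e] <;> norm_num
  rw [e2, one_mul] at e1
  exact e1

theorem form_of_scalar_pm {φ : Matrix (Fin n) (Fin n) 𝕂 → Matrix (Fin n) (Fin n) 𝕂} (c : 𝕂)
    (hc : c ^ 2 = 1) (ξ η : Matrix (Fin n) (Fin n) 𝕂 → 𝕂) (hξ : ∀ T, ξ T = 1 ∨ ξ T = -1)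
    (hform : ∀ T, φ T = (ξ T * c) • T + η T • (1 : Matrix (Fin n) (Fin n) 𝕂))
    (hconst : ∀ T S, ¬ Quad T → ¬ Quad S → ξ T = ξ S) : Form φ := by
  have hc' : c = 1 ∨ c = -1 := by
    have e : (c - 1) * (c + 1) = 0 := by linear_combination hc
    rcases mul_eq_zero.mp e with e1 | e1
    · left; exact sub_eq_zero.mp e1
    · right; exact eq_neg_of_add_eq_zero_left e1
  refine ⟨1, fun T => ξ T * c, η, ?_, ?_, Or.inl ?_⟩
  · intro T
    rcases hξ T with e1 | e1 <;> rcases hc' with e2 | e2 <;> simp [e1, e2]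
  · intro T S hT hS
    simp only [hconst T S hT hS]
  · intro T
    simp [hform T]

theorem core_norm (hn2 : 2 ≤ n) {φ : Matrix (Fin n) (Fin n) 𝕂 → Matrix (Fin n) (Fin n) 𝕂}
    (hφ : Pres φ) (c : 𝕂) (hc : c ^ 2 = 1 ∨ c ^ 2 = -1)
    (h : Matrix (Fin n) (Fin n) 𝕂 → 𝕂) (hLP : LP h) (hne : ∃ x, h x ≠ 0)
    (H : ∀ x, h x ≠ 0 → tl (φ x) = c • tl x ∨ tl (φ x) = -(c • tl x)) : Form φ := by
  choose ξ η hξ hform using core_pointwise hφ c hc h hLP hne H
  by_cases hn3 : 3 ≤ n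
  · obtain ⟨h1, h2⟩ := core_big hn3 hφ c hc ξ η hξ hform
    exact form_of_scalar_pm c h1 ξ η hξ hform h2
  · obtain rfl : n = 2 := by omega
    have hconst : ∀ T S, ¬ Quad T → ¬ Quad S → ξ T = ξ S :=
      fun T S hT _ => absurd (quad_two T) hT
    rcases hc with hc | hc
    · exact form_of_scalar_pm c hc ξ η hξ hform hconst
    · have hc' : c = (im 𝕂) ∨ c = -(im 𝕂) := by
        have e : (c - (im 𝕂)) * (c + (im 𝕂)) = 0 := by
          linear_combination hc - (im_sq (𝕂 := 𝕂))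
        rcases mul_eq_zero.mp e with e1 | e1
        · left; exact sub_eq_zero.mp e1
        · right; exact eq_neg_of_add_eq_zero_left e1
      let J : (Matrix (Fin 2) (Fin 2) 𝕂)ˣ :=
        { val := !![0, 1; -1, 0]
          inv := !![0, -1; 1, 0]
          val_inv := by
            ext i j
            fin_cases i <;> fin_cases j <;> simp [Matrix.mul_apply, Fin.sum_univ_two]
          inv_val := by
            ext i j
            fin_cases i <;> fin_cases j <;> simp [Matrix.mul_apply, Fin.sum_univ_two] }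
      have hJ : ∀ T : Matrix (Fin 2) (Fin 2) 𝕂, (J : Matrix (Fin 2) (Fin 2) 𝕂) * Tᵀ *
          (J⁻¹ : (Matrix (Fin 2) (Fin 2) 𝕂)ˣ) =
          T.trace • (1 : Matrix (Fin 2) (Fin 2) 𝕂) - T := by
        intro T
        show (!![0, 1; -1, 0] : Matrix (Fin 2) (Fin 2) 𝕂) * Tᵀ * !![0, -1; 1, 0] = _
        ext i j
        fin_cases i <;> fin_cases j <;>
          simp [Matrix.mul_apply, Matrix.vecMul, dotProduct, Fin.sum_univ_two, Matrix.trace]
      refine ⟨J, fun T => ξ T * c * (im 𝕂), fun T => η T + ξ T * c * T.trace, ?_, ?_,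
        Or.inr ?_⟩
      · intro T
        rcases hξ T with e1 | e1 <;> rcases hc' with e2 | e2 <;>
          simp [e1, e2, im_mul_im (𝕂 := 𝕂)]
      · intro T S hT hS
        simp only [hconst T S hT hS]
      · intro T
        rw [hJ, hform T]
        have e : (im 𝕂) * (ξ T * c * (im 𝕂)) = -(ξ T * c) := by
          linear_combination (ξ T * c) * (im_mul_im (𝕂 := 𝕂))
        rw [e]
        module

theorem trace_conj_unit (A : (Matrix (Fin n) (Fin n) 𝕂)ˣ) (X : Matrix (Fin n) (Fin n) 𝕂) :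
    (A.val * X * (A⁻¹).val).trace = X.trace := by
  rw [Matrix.trace_mul_comm, ← Matrix.mul_assoc, Units.inv_mul, one_mul]

theorem tl_conj (A : (Matrix (Fin n) (Fin n) 𝕂)ˣ) (X : Matrix (Fin n) (Fin n) 𝕂) :
    tl (A.val * X * (A⁻¹).val) = A.val * tl X * (A⁻¹).val := by
  rw [tl_apply, tl_apply, trace_conj_unit]
  simp only [mul_sub, sub_mul, mul_smul_comm, smul_mul_assoc, mul_one, Units.mul_inv]

theorem tl_transpose (X : Matrix (Fin n) (Fin n) 𝕂) : tl Xᵀ = (tl X)ᵀ := by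
  rw [tl_apply, tl_apply, Matrix.trace_transpose, Matrix.transpose_sub, Matrix.transpose_smul,
    Matrix.transpose_one]

theorem transpose_comm (X Y : Matrix (Fin n) (Fin n) 𝕂) :
    ((im 𝕂) • Xᵀ) * ((im 𝕂) • Yᵀ) - ((im 𝕂) • Yᵀ) * ((im 𝕂) • Xᵀ) =
      (X * Y - Y * X)ᵀ := by
  rw [smul_mul_smul_comm, smul_mul_smul_comm, (im_mul_im (𝕂 := 𝕂)), Matrix.transpose_sub,
    Matrix.transpose_mul, Matrix.transpose_mul]
  module

theorem form_of_pres_big (hn2 : 2 ≤ n)
    {φ : Matrix (Fin n) (Fin n) 𝕂 → Matrix (Fin n) (Fin n) 𝕂} (hφ : Pres φ) : Form φ := by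
  have hn : n ≠ 0 := by omega
  obtain ⟨ψ, h, hLP, hne, hsgn, hψ1, hψtr, hψF⟩ := exists_psi hn hφ
  obtain ⟨Ψ, hΨ1, hΨtr, hΨF, hΨψ⟩ := exists_Psi hn ψ hψ1 hψtr hψF
  obtain ⟨α, c, hc, hα1, hαtr, hαlie, hαiso, hαΨ⟩ := exists_alpha hn Ψ hΨ1 hΨtr hΨF
  obtain ⟨A0, hA0, hA⟩ := lieaut hn2 α hαtr hαlie hαiso
  obtain ⟨A, rfl⟩ := hA0
  have hψα : ∀ x, ψ x = c • tl (α x) := fun x => by rw [← hΨψ, hαΨ]
  have hconj : ∀ X : Matrix (Fin n) (Fin n) 𝕂,
      A.val * ((A⁻¹).val * X * A.val) * (A⁻¹).val = X := by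
    intro X
    calc _ = (A.val * (A⁻¹).val) * X * (A.val * (A⁻¹).val) := by noncomm_ring
      _ = X := by rw [Units.mul_inv]; simp
  have hcommA : ∀ X Y : Matrix (Fin n) (Fin n) 𝕂,
      ((A⁻¹).val * X * A.val) * ((A⁻¹).val * Y * A.val) -
      ((A⁻¹).val * Y * A.val) * ((A⁻¹).val * X * A.val) =
      (A⁻¹).val * (X * Y - Y * X) * A.val := by
    intro X Y
    have := comm_conj A⁻¹ X Y
    rw [_root_.inv_inv] at this
    exact this
  have hspecA : ∀ X : Matrix (Fin n) (Fin n) 𝕂,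
      spectrum 𝕂 ((A⁻¹).val * X * A.val) = spectrum 𝕂 X := by
    intro X
    have := spectrum.units_conjugate (R := 𝕂) (a := X) (u := A⁻¹)
    rw [_root_.inv_inv] at this
    exact this
  have hspecA0 : ∀ X : Matrix (Fin n) (Fin n) 𝕂,
      sp0 ((A⁻¹).val * X * A.val) = sp0 X := by
    intro X
    unfold sp0
    rw [hspecA]
  have hspT : ∀ X : Matrix (Fin n) (Fin n) 𝕂, sp0 Xᵀ = sp0 X := by
    intro X
    unfold sp0
    rw [spectrum_transpose]
  have htlA : ∀ X : Matrix (Fin n) (Fin n) 𝕂,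
      tl ((A⁻¹).val * X * A.val) = (A⁻¹).val * tl X * A.val := by
    intro X
    have := tl_conj A⁻¹ X
    rw [_root_.inv_inv] at this
    exact this
  rcases hA with hA | hA
  · have hform : Form (fun T => (A⁻¹).val * φ T * A.val) := by
      apply core_norm hn2 ?_ c hc h hLP hne
      · intro x hx
        have e2 : (A⁻¹).val * tl (α x) * A.val = tl x := by
          have e3 := htlA (α x)
          rw [Matrix.mul_assoc, hA x, ← Matrix.mul_assoc, Units.inv_mul, one_mul] at e3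
          exact e3.symm
        rw [htlA]
        rcases hsgn x hx with e4 | e4
        · left
          rw [e4, hψα, mul_smul_comm, smul_mul_assoc, e2]
        · right
          rw [e4, hψα, mul_neg, neg_mul, mul_smul_comm, smul_mul_assoc, e2]
      · intro T S
        rw [hcommA, hspecA0]
        exact hφ T S
    have := form_conj hform A
    simp only [hconj] at this
    exact this
  · have hform : Form (fun T => (im 𝕂) • ((A⁻¹).val * φ T * A.val)ᵀ) := by
      have hc' : ((im 𝕂) * c) ^ 2 = 1 ∨ ((im 𝕂) * c) ^ 2 = -1 := by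
        rw [mul_pow, (im_sq (𝕂 := 𝕂))]
        rcases hc with e | e <;> rw [e] <;> norm_num
      apply core_norm hn2 ?_ ((im 𝕂) * c) hc' h hLP hne
      · intro x hx
        have e2 : (A⁻¹).val * tl (α x) * A.val = - (tl x)ᵀ := by
          have e3 := htlA (α x)
          rw [Matrix.mul_assoc, hA x, ← Matrix.mul_assoc, Units.inv_mul, one_mul,
            map_add, map_neg, map_smul, tl_one hn, smul_zero, add_zero, tl_transpose] at e3
          exact e3.symm
        rw [map_smul, tl_transpose, htlA]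
        rcases hsgn x hx with e4 | e4
        · right
          rw [e4, hψα, mul_smul_comm, smul_mul_assoc, e2]
          simp only [Matrix.transpose_smul, Matrix.transpose_neg, Matrix.transpose_transpose]
          module
        · left
          rw [e4, hψα, mul_neg, neg_mul, mul_smul_comm, smul_mul_assoc, e2]
          simp only [Matrix.transpose_smul, Matrix.transpose_neg, Matrix.transpose_transpose]
          module
      · intro T S
        rw [transpose_comm, hcommA, hspT, hspecA0]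
        exact hφ T S
    have := form_trans hform A
    have e8 : ∀ T, (-(im 𝕂)) • (A.val *
        ((im 𝕂) • ((A⁻¹).val * φ T * A.val)ᵀ)ᵀ * (A⁻¹).val) = φ T := by
      intro T
      rw [Matrix.transpose_smul, Matrix.transpose_transpose, mul_smul_comm, smul_mul_assoc,
        hconj, smul_smul, neg_mul, (im_mul_im (𝕂 := 𝕂)), neg_neg, one_smul]
    simp only [e8] at this
    exact this

theorem form_of_pres {φ : Matrix (Fin n) (Fin n) 𝕂 → Matrix (Fin n) (Fin n) 𝕂}
    (hφ : Pres φ) : Form φ := by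
  by_cases hn2 : 2 ≤ n
  · exact form_of_pres_big hn2 hφ
  · have hn : n = 0 ∨ n = 1 := by omega
    rcases hn with rfl | rfl
    · refine ⟨1, fun _ => 1, fun _ => 0, fun _ => Or.inl rfl, fun _ _ _ _ => rfl, Or.inl ?_⟩
      intro T
      ext i
      exact i.elim0
    · refine ⟨1, fun _ => 1, fun T => φ T 0 0 - T 0 0, fun _ => Or.inl rfl,
        fun _ _ _ _ => rfl, Or.inl ?_⟩
      intro T
      ext i j
      fin_cases i
      fin_cases j
      simp

end Pool.Agent.Y68.CS
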