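import Mathlib
import Pool.Agent.Y68.CS.Main

open Matrix Polynomial Module

set_option linter.unusedSectionVars false

namespace Pool.Agent.Y68.CS

variable {𝕂 : Type*} [Field 𝕂] [IsAlgClosed 𝕂] [CharZero 𝕂]

variable {n : ℕ}

theorem cp_conj (A : (Matrix (Fin n) (Fin n) 𝕂)ˣ) (M : Matrix (Fin n) (Fin n) 𝕂) :
    (A.val * M * (A⁻¹).val).charpoly = M.charpoly := by
  rw [Matrix.coe_units_inv, Matrix.charpoly_units_conj]

theorem charpoly_neg_left {T : Matrix (Fin n) (Fin n) 𝕂} (hT : Quad T)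
    (S : Matrix (Fin n) (Fin n) 𝕂) :
    (-(T * S - S * T)).charpoly = (T * S - S * T).charpoly := by
  obtain ⟨r, s, hrs⟩ := hT
  set R := T - r • (1 : Matrix (Fin n) (Fin n) 𝕂) with hR
  have hC : T * S - S * T = R * S - S * R := by
    rw [hR]
    simp only [sub_mul, mul_sub, smul_mul_assoc, mul_smul_comm, mul_one, one_mul]
    abel
  rw [hC]
  by_cases hs : s = 0
  · rw [hs, zero_smul] at hrs
    have e : ∀ (l : 𝕂) (M : Matrix (Fin n) (Fin n) 𝕂), M.charpoly.eval l =
        (l • (1 : Matrix (Fin n) (Fin n) 𝕂) - M).det := by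
      intro l M
      rw [Matrix.eval_charpoly]
      congr 1
      ext i j
      simp [Matrix.scalar_apply, Matrix.diagonal_apply, Matrix.one_apply]
    have h2 : (X : 𝕂[X]) ^ n * (-(R * S - S * R)).charpoly =
        (X : 𝕂[X]) ^ n * (R * S - S * R).charpoly := by
      apply Polynomial.funext
      intro l
      rw [Polynomial.eval_mul, Polynomial.eval_mul, Polynomial.eval_pow, Polynomial.eval_X, e, e,
        sub_neg_eq_add]
      exact det_identity l (S := S) hrs
    exact mul_left_cancel₀ (pow_ne_zero _ Polynomial.X_ne_zero) h2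
  · have hRR : R * (s⁻¹ • R) = 1 := by
      rw [mul_smul_comm, hrs, smul_smul, inv_mul_cancel₀ hs, one_smul]
    have hRR' : (s⁻¹ • R) * R = 1 := by
      rw [smul_mul_assoc, hrs, smul_smul, inv_mul_cancel₀ hs, one_smul]
    let U : (Matrix (Fin n) (Fin n) 𝕂)ˣ := ⟨R, s⁻¹ • R, hRR, hRR'⟩
    have h1 : R * (R * S - S * R) = -((R * S - S * R) * R) := by
      have e1 : (R * S - S * R) * R = R * S * R - S * (R * R) := by noncomm_ring
      have e2 : R * (R * S - S * R) = (R * R) * S - R * S * R := by noncomm_ring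
      rw [e1, e2, hrs]
      simp
    have h2 : -(R * S - S * R) = U.val * (R * S - S * R) * (U⁻¹).val := by
      change _ = R * (R * S - S * R) * (s⁻¹ • R)
      rw [h1, neg_mul, Matrix.mul_assoc, hRR, Matrix.mul_one]
    rw [h2, cp_conj]

theorem charpoly_neg_of_quad {T S : Matrix (Fin n) (Fin n) 𝕂} (h : Quad T ∨ Quad S) :
    (-(T * S - S * T)).charpoly = (T * S - S * T).charpoly := by
  rcases h with h | h
  · exact charpoly_neg_left h S
  · have h1 := charpoly_neg_left h T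
    have e : S * T - T * S = -(T * S - S * T) := by abel
    rw [e, neg_neg] at h1
    exact h1.symm

theorem charpoly_of_form {φ : Matrix (Fin n) (Fin n) 𝕂 → Matrix (Fin n) (Fin n) 𝕂} (h : Form φ)
    (T S : Matrix (Fin n) (Fin n) 𝕂) :
    (φ T * φ S - φ S * φ T).charpoly = (T * S - S * T).charpoly := by
  obtain ⟨A, ξ, η, h1, h2, h3⟩ := h
  have hs : ((ξ T * ξ S) • (T * S - S * T)).charpoly = (T * S - S * T).charpoly := by
    by_cases hTS : ξ T * ξ S = 1
    · rw [hTS, one_smul]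
    · have hm : ξ T * ξ S = -1 := by
        rcases h1 T with e1 | e1 <;> rcases h1 S with e2 | e2 <;> simp [e1, e2] at hTS ⊢
      rw [hm, neg_smul, one_smul]
      apply charpoly_neg_of_quad
      by_contra hcon
      push Not at hcon
      have e3 := h2 T S hcon.1 hcon.2
      apply hTS
      rw [e3]
      rcases h1 S with e2 | e2 <;> rw [e2] <;> norm_num
  rcases h3 with h3 | h3
  · rw [h3 T, h3 S, comm_affine, comm_conj, ← smul_mul_assoc, ← mul_smul_comm,
      cp_conj, hs]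
  · rw [h3 T, h3 S, comm_affine, comm_conj, ← smul_mul_assoc, ← mul_smul_comm,
      cp_conj]
    have e1 : ((im 𝕂) * ξ T * ((im 𝕂) * ξ S)) • (Tᵀ * Sᵀ - Sᵀ * Tᵀ) =
        ((ξ T * ξ S) • (T * S - S * T))ᵀ := by
      rw [Matrix.transpose_smul, Matrix.transpose_sub, Matrix.transpose_mul,
        Matrix.transpose_mul]
      have e2 : (im 𝕂) * ξ T * ((im 𝕂) * ξ S) = - (ξ T * ξ S) := by
        linear_combination (ξ T * ξ S) * (im_mul_im (𝕂 := 𝕂))
      rw [e2]
      module
    rw [e1, Matrix.charpoly_transpose, hs]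

/-- the normal form, with an arbitrary square root of `-1` -/
theorem form_iff (z : 𝕂) (hz : z * z = -1)
    {φ : Matrix (Fin n) (Fin n) 𝕂 → Matrix (Fin n) (Fin n) 𝕂} :
    Form φ ↔ ∃ (A : (Matrix (Fin n) (Fin n) 𝕂)ˣ) (ξ η : Matrix (Fin n) (Fin n) 𝕂 → 𝕂),
      (∀ T, ξ T = 1 ∨ ξ T = -1) ∧ (∀ T S, ¬ Quad T → ¬ Quad S → ξ T = ξ S) ∧
      ((∀ T, φ T = ξ T • (A.val * T * (A⁻¹).val) + η T • (1 : Matrix (Fin n) (Fin n) 𝕂)) ∨
       (∀ T, φ T = (z * ξ T) • (A.val * Tᵀ * (A⁻¹).val) +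
          η T • (1 : Matrix (Fin n) (Fin n) 𝕂))) := by
  have hzz : z = im 𝕂 ∨ z = -im 𝕂 := by
    have e : (z - im 𝕂) * (z + im 𝕂) = 0 := by
      linear_combination hz - im_mul_im (𝕂 := 𝕂)
    rcases mul_eq_zero.mp e with e1 | e1
    · exact Or.inl (sub_eq_zero.mp e1)
    · exact Or.inr (eq_neg_of_add_eq_zero_left e1)
  have hneg : ∀ x : 𝕂, (x = 1 ∨ x = -1) → (-x = 1 ∨ -x = -1) := by
    rintro x (rfl | rfl)
    · exact Or.inr rfl
    · exact Or.inl (neg_neg 1)
  constructor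
  · rintro ⟨A, ξ, η, h1, h2, h3 | h3⟩
    · exact ⟨A, ξ, η, h1, h2, Or.inl h3⟩
    · rcases hzz with e | e
      · refine ⟨A, ξ, η, h1, h2, Or.inr fun T => ?_⟩
        rw [e]; exact h3 T
      · refine ⟨A, fun T => -ξ T, η, fun T => hneg _ (h1 T), fun T S hT hS => ?_,
          Or.inr fun T => ?_⟩
        · simp only [h2 T S hT hS]
        · rw [e, neg_mul_neg]; exact h3 T
  · rintro ⟨A, ξ, η, h1, h2, h3 | h3⟩
    · exact ⟨A, ξ, η, h1, h2, Or.inl h3⟩
    · rcases hzz with e | e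
      · refine ⟨A, ξ, η, h1, h2, Or.inr fun T => ?_⟩
        rw [← e]; exact h3 T
      · refine ⟨A, fun T => -ξ T, η, fun T => hneg _ (h1 T), fun T S hT hS => ?_,
          Or.inr fun T => ?_⟩
        · simp only [h2 T S hT hS]
        · have e2 : im 𝕂 = -z := by rw [e, neg_neg]
          rw [e2, neg_mul_neg]; exact h3 T

end Pool.Agent.Y68.CS
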